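import Mathlib

set_option autoImplicit false
set_option linter.unusedVariables false

/-! A persistent change of colour. -/

namespace Pool.Agent.H536R3.RM

universe u

variable {γ : Type u}

/-- far from the exceptional set -/
def Good (C : Finset ℤ) (L x : ℤ) : Prop := ∀ c ∈ C, L < |x - c|

theorem consec (C : Finset ℤ) (L : ℤ) (col : ℤ → γ) : ∀ (n : ℕ) (x y : ℤ), y - x ≤ n → x < y →
    Good C L x → Good C L y → col x ≠ col y →
    ∃ u v, x ≤ u ∧ u < v ∧ v ≤ y ∧ Good C L u ∧ Good C L v ∧ col u ≠ col v ∧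
      ∀ z, u < z → z < v → ¬ Good C L z := by
  intro n
  induction n with
  | zero => intro x y h1 h2; simp at h1; omega
  | succ n ih =>
    intro x y h1 h2 hx hy hne
    by_cases h : ∃ z, x < z ∧ z < y ∧ Good C L z
    · obtain ⟨z, hz1, hz2, hz⟩ := h
      by_cases h3 : col x = col z
      · obtain ⟨u, v, a1, a2, a3, a4⟩ := ih z y (by push_cast at h1; omega) hz2 hz hy
          (by rw [← h3]; exact hne)
        exact ⟨u, v, by omega, a2, a3, a4⟩
      · obtain ⟨u, v, a1, a2, a3, a4⟩ := ih x z (by push_cast at h1; omega) hz1 hx hz h3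
        exact ⟨u, v, a1, a2, by omega, a4⟩
    · push Not at h
      exact ⟨x, y, le_rfl, h2, le_rfl, hx, hy, hne, h⟩

theorem change (C : Finset ℤ) (N L L' : ℤ) (hL : 0 ≤ L) (hLL : 2 * L + 1 ≤ L')
    (hm1 : (-1 : ℤ) ∈ C) (hN : N ∈ C)
    (hgap : ∀ c ∈ C, ∀ c' ∈ C, c < c' → c' - c ≤ L ∨ L' < c' - c)
    (col : ℤ → γ) (hcol : ∀ x, 0 ≤ x → x + 1 < N → x ∉ C → x + 1 ∉ C → col x = col (x + 1))
    (x y : ℤ) (hx0 : 0 ≤ x) (hxy : x < y) (hyN : y < N) (hx : Good C L x) (hy : Good C L y)
    (hne : col x ≠ col y) :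
    ∃ u v, u < v ∧ v - u ≤ 3 * L + 2 ∧ L' - L - 1 ≤ u ∧ v + (L' - L - 1) < N ∧ col u ≠ col v ∧
      (∀ z, u - (L' - L - 1) ≤ z → z ≤ u → z ∉ C ∧ col z = col u) ∧
      (∀ z, v ≤ z → z ≤ v + (L' - L - 1) → z ∉ C ∧ col z = col v) := by
  obtain ⟨u, v, h1, h2, h3, hu, hv, huv, hbad⟩ :=
    consec C L col (y - x).toNat x y (by omega) hxy hx hy hne
  have gnot : ∀ z, Good C L z → z ∉ C := by
    intro z hz hzC
    have := hz z hzC
    rw [sub_self, abs_zero] at this
    omega
  have huC := gnot u hu
  have hvC := gnot v hv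
  have hadj : u + 1 < v := by
    by_contra hc
    have h4 : u + 1 = v := by omega
    apply huv
    rw [← h4]
    exact hcol u (by omega) (by omega) huC (by rw [h4]; exact hvC)
  -- the exceptional points next to `u` and `v`
  have hc1 : u + 1 + L ∈ C := by
    have h4 := hbad (u + 1) (by omega) hadj
    unfold Good at h4
    push Not at h4
    obtain ⟨c, hc, hcd⟩ := h4
    have h5 := hu c hc
    rw [abs_le] at hcd
    rw [lt_abs] at h5
    have h6 : c = u + 1 + L := by omega
    rw [← h6]; exact hc
  have hc2 : v - 1 - L ∈ C := by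
    have h4 := hbad (v - 1) (by omega) (by omega)
    unfold Good at h4
    push Not at h4
    obtain ⟨c, hc, hcd⟩ := h4
    have h5 := hv c hc
    rw [abs_le] at hcd
    rw [lt_abs] at h5
    have h6 : c = v - 1 - L := by omega
    rw [← h6]; exact hc
  have hlen : v - u ≤ 3 * L + 2 := by
    by_contra hc
    push Not at hc
    obtain ⟨cs, hcs, hmax⟩ := Finset.exists_max_image
      (C.filter fun c => u + 1 + L ≤ c ∧ c ≤ u + 1 + L + L) id
      ⟨u + 1 + L, Finset.mem_filter.2 ⟨hc1, by omega, by omega⟩⟩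
    obtain ⟨hcsC, hcs1, hcs2⟩ := Finset.mem_filter.1 hcs
    have h4 := hbad (cs + L + 1) (by omega) (by omega)
    unfold Good at h4
    push Not at h4
    obtain ⟨c, hcC, hcd⟩ := h4
    rw [abs_le] at hcd
    have h5 : c - cs ≤ L := by
      rcases hgap cs hcsC c hcC (by omega) with h | h
      · exact h
      · omega
    have h6 : c - (u + 1 + L) ≤ L := by
      rcases hgap _ hc1 c hcC (by omega) with h | h
      · exact h
      · omega
    have h7 := hmax c (Finset.mem_filter.2 ⟨hcC, by omega, by omega⟩)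
    simp only [id] at h7
    omega
  have hR : ∀ z, v ≤ z → z ≤ v + (L' - L - 1) → z ∉ C := by
    intro z hz1 hz2 hzC
    have h4 := hv z hzC
    rw [lt_abs] at h4
    rcases hgap _ hc2 z hzC (by omega) with h | h <;> omega
  have hLf : ∀ z, u - (L' - L - 1) ≤ z → z ≤ u → z ∉ C := by
    intro z hz1 hz2 hzC
    have h4 := hu z hzC
    rw [lt_abs] at h4
    rcases hgap z hzC _ hc1 (by omega) with h | h <;> omega
  have hvN : v + (L' - L - 1) < N := by
    by_contra hc
    exact hR N (by omega) (by omega) hN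
  have hu0 : L' - L - 1 ≤ u := by
    by_contra hc
    exact hLf (-1) (by omega) (by omega) hm1
  refine ⟨u, v, h2, hlen, hu0, hvN, huv, ?_, ?_⟩
  · have key : ∀ n : ℕ, (n : ℤ) ≤ L' - L - 1 → col (u - n) = col u := by
      intro n
      induction n with
      | zero => intro _; simp
      | succ n ih =>
        intro hn
        push_cast at hn
        rw [← ih (by omega)]
        have h4 := hcol (u - (n + 1)) (by omega) (by omega) (hLf _ (by omega) (by omega))
          (hLf _ (by omega) (by omega))
        push_cast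
        rw [h4]
        congr 1
        ring
    intro z hz1 hz2
    refine ⟨hLf z hz1 hz2, ?_⟩
    have h4 := key (u - z).toNat (by omega)
    rw [← h4]
    congr 1
    omega
  · have key : ∀ n : ℕ, (n : ℤ) ≤ L' - L - 1 → col (v + n) = col v := by
      intro n
      induction n with
      | zero => intro _; simp
      | succ n ih =>
        intro hn
        push_cast at hn
        rw [← ih (by omega)]
        have h4 := hcol (v + n) (by omega) (by omega) (hR _ (by omega) (by omega))
          (hR _ (by omega) (by omega))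
        push_cast
        rw [h4]
        congr 1
        ring
    intro z hz1 hz2
    refine ⟨hR z hz1 hz2, ?_⟩
    have h4 := key (z - v).toNat (by omega)
    rw [← h4]
    congr 1
    omega

/-- pigeonhole on scales -/
theorem scale (C : Finset ℤ) (w S : ℕ) (hS : C.card * C.card < S) (hw : 0 < w) :
    ∃ s < S, ∀ c ∈ C, ∀ c' ∈ C, c < c' → c' - c ≤ 2 ^ (w * s) ∨ 2 ^ (w * (s + 1)) < c' - c := by
  classical
  by_contra hc
  push Not at hc
  have hch : ∀ s, ∃ p : ℤ × ℤ, s < S → p ∈ C ×ˢ C ∧ (2 : ℤ) ^ (w * s) < p.2 - p.1 ∧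
      p.2 - p.1 ≤ 2 ^ (w * (s + 1)) := by
    intro s
    by_cases hs : s < S
    · obtain ⟨c, hc1, c', hc2, h1, h2, h3⟩ := hc s hs
      exact ⟨(c, c'), fun _ => ⟨Finset.mem_product.2 ⟨hc1, hc2⟩, h2, h3⟩⟩
    · exact ⟨(0, 0), fun h => absurd h hs⟩
  choose p hp using hch
  have h1 : (Finset.range S).card ≤ (C ×ˢ C).card := by
    apply Finset.card_le_card_of_injOn p
    · intro s hs
      exact (hp s (Finset.mem_range.1 hs)).1
    · have key : ∀ s s', s < S → s' < S → s < s' → p s ≠ p s' := by
        intro s s' hs hs' hss he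
        have h2 := (hp s hs).2.2
        have h3 := (hp s' hs').2.1
        rw [he] at h2
        have h4 : (2 : ℤ) ^ (w * (s + 1)) ≤ 2 ^ (w * s') :=
          pow_le_pow_right₀ (by norm_num) (Nat.mul_le_mul_left _ hss)
        omega
      intro s hs s' hs' he
      rcases lt_trichotomy s s' with h | h | h
      · exact absurd he (key s s' (Finset.mem_range.1 hs) (Finset.mem_range.1 hs') h)
      · exact h
      · exact absurd he.symm (key s' s (Finset.mem_range.1 hs') (Finset.mem_range.1 hs) h)
  rw [Finset.card_range, Finset.card_product] at h1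
  omega

/-- counting the positions close to the exceptional set -/
theorem bad_count (C : Finset ℤ) (L : ℕ) (B : Finset ℤ) (hB : ∀ x ∈ B, ¬ Good C L x) :
    B.card ≤ C.card * (2 * L + 1) := by
  classical
  have h1 : B ⊆ C.biUnion fun c => Finset.Icc (c - L) (c + L) := by
    intro x hx
    have h2 := hB x hx
    unfold Good at h2
    push Not at h2
    obtain ⟨c, hc, hcd⟩ := h2
    rw [Finset.mem_biUnion]
    refine ⟨c, hc, ?_⟩
    rw [Finset.mem_Icc]
    rw [abs_le] at hcd
    omega
  refine (Finset.card_le_card h1).trans ?_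
  refine (Finset.card_biUnion_le_card_mul _ _ (2 * L + 1) ?_)
  intro c hc
  rw [Int.card_Icc]
  omega

end Pool.Agent.H536R3.RM
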