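import Pool.Agent.H536R3.RM.Many

set_option autoImplicit false
set_option linter.unusedVariables false

/-! There is no map of the dyadic half-plane to a tree with thin fibres. -/

namespace Pool.Agent.H536R3.RM

universe u

variable {V : Type u} {T : SimpleGraph V} {f : ℕ → ℕ → V} {Λ : ℕ} {s : ℕ → ℕ}

theorem iter (hT : T.Connected) {a M n0 : ℕ}
    (hK : ∀ k i, ∃ S : Finset (ℕ × ℕ), M ≤ S.card ∧
      (∀ p ∈ S, p.1 ≤ n0 ∧ p.2 / 2 ^ p.1 = i ∧ T.dist (f k i) (f (k + p.1) p.2) ≤ a) ∧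
      (∀ p ∈ S, ∀ p' ∈ S, p'.1 ≤ p.1 → p.2 / 2 ^ (p.1 - p'.1) = p'.2 → p = p')) :
    ∀ h k i, ∃ S : Finset (ℕ × ℕ), M ^ h ≤ S.card ∧
      ∀ p ∈ S, p.1 ≤ n0 * h ∧ p.2 / 2 ^ p.1 = i ∧ T.dist (f k i) (f (k + p.1) p.2) ≤ a * h := by
  classical
  intro h
  induction h with
  | zero =>
    intro k i
    refine ⟨{(0, i)}, by simp, ?_⟩
    intro p hp
    rw [Finset.mem_singleton] at hp
    subst hp
    simp
  | succ h ih =>
    intro k i
    obtain ⟨S1, h1, h2, h3⟩ := hK k i
    choose R hR1 hR2 using fun p : ℕ × ℕ => ih (k + p.1) p.2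
    refine ⟨S1.biUnion fun p => (R p).image fun q => (p.1 + q.1, q.2), ?_, ?_⟩
    · rw [Finset.card_biUnion]
      · have h4 : ∀ p ∈ S1, M ^ h ≤ ((R p).image fun q => (p.1 + q.1, q.2)).card := by
          intro p hp
          rw [Finset.card_image_of_injective]
          · exact hR1 p
          · intro q q' hq
            have e1 := (Prod.mk.inj hq).1
            have e2 := (Prod.mk.inj hq).2
            exact Prod.ext (by omega) e2
        have h5 := Finset.card_nsmul_le_sum S1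
          (fun p => ((R p).image fun q => (p.1 + q.1, q.2)).card) (M ^ h) h4
        rw [smul_eq_mul] at h5
        rw [pow_succ']
        exact (Nat.mul_le_mul_right _ h1).trans h5
      · have key : ∀ p ∈ S1, ∀ p' ∈ S1, p'.1 ≤ p.1 → p ≠ p' →
            Disjoint ((R p).image fun q => (p.1 + q.1, q.2))
              ((R p').image fun q => (p'.1 + q.1, q.2)) := by
          intro p hp p' hp' hle hne
          rw [Finset.disjoint_left]
          intro x hx hx'
          obtain ⟨q, hq, rfl⟩ := Finset.mem_image.1 hx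
          obtain ⟨q', hq', he⟩ := Finset.mem_image.1 hx'
          have e1 : p'.1 + q'.1 = p.1 + q.1 := (Prod.mk.inj he).1
          have e2 : q'.2 = q.2 := (Prod.mk.inj he).2
          apply hne
          apply h3 p hp p' hp' hle
          have e3 := (hR2 p q hq).2.1
          have e4 := (hR2 p' q' hq').2.1
          rw [← e3, ← e4, e2, Nat.div_div_eq_div_mul, ← pow_add]
          congr 2
          omega
        intro p hp p' hp' hne
        rcases le_total p'.1 p.1 with hle | hle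
        · exact key p hp p' hp' hle hne
        · exact (key p' hp' p hp hle hne.symm).symm
    · intro x hx
      rw [Finset.mem_biUnion] at hx
      obtain ⟨p, hp, hx⟩ := hx
      obtain ⟨q, hq, rfl⟩ := Finset.mem_image.1 hx
      obtain ⟨a1, a2, a3⟩ := h2 p hp
      obtain ⟨b1, b2, b3⟩ := hR2 p q hq
      refine ⟨?_, ?_, ?_⟩
      · simp only; rw [mul_add]; omega
      · simp only
        rw [add_comm, pow_add, ← Nat.div_div_eq_div_mul, b2, a2]
      · simp only
        have h4 := hT.dist_triangle (u := f k i) (v := f (k + p.1) p.2)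
          (w := f (k + p.1 + q.1) q.2)
        rw [← add_assoc, mul_add]
        omega

theorem no_thin (hT : T.IsTree) {Δ : ℕ}
    (hΔ : ∀ (x : V) (s : Finset V), (∀ y ∈ s, T.Adj x y) → s.card ≤ Δ)
    (hc : Cond T f Λ s)
    (hs : ∀ ε : ℝ, 0 < ε → ∃ C : ℝ, ∀ n, (s n : ℝ) ≤ C * Real.exp (ε * n)) : False := by
  classical
  have hTc := hT.connected
  obtain ⟨C0, hC0⟩ := hs (Real.log (3 / 2)) (Real.log_pos (by norm_num))
  have hC0' : ∀ n, (s n : ℝ) ≤ C0 * (3 / 2) ^ n := by
    intro n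
    have h1 := hC0 n
    rw [mul_comm (Real.log (3 / 2)), Real.exp_nat_mul, Real.exp_log (by norm_num)] at h1
    exact h1
  obtain ⟨a, ha⟩ := many hT hΔ hc C0 hC0'
  set B := (Δ + 1) ^ a with hB
  obtain ⟨n0, hn0⟩ := ha (2 * B)
  have hit := iter hTc hn0
  have hε : 0 < Real.log 2 / (2 * (n0 + 1)) := by
    have := Real.log_pos (by norm_num : (1 : ℝ) < 2)
    positivity
  obtain ⟨C1, hC1⟩ := hs _ hε
  have hC1' : 0 ≤ C1 := by
    have h1 := hC1 0
    rw [Nat.cast_zero, mul_zero, Real.exp_zero, mul_one] at h1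
    exact (Nat.cast_nonneg _).trans h1
  have main : ∀ h : ℕ, (2 : ℝ) ^ h ≤ (2 * n0 * h + 1) * C1 := by
    intro h
    obtain ⟨S, hS1, hS2⟩ := hit (2 * h) 0 0
    have h1 : S.card ≤ ∑ n ∈ Finset.range (n0 * (2 * h) + 1),
        (S.filter fun p => p.1 = n).card := by
      rw [← Finset.card_eq_sum_card_fiberwise (f := fun p : ℕ × ℕ => p.1)
        (t := Finset.range (n0 * (2 * h) + 1))]
      intro p hp
      have := (hS2 p hp).1
      simp only [Finset.coe_range, Set.mem_Iio]
      omega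
    have h2 : ∀ n ∈ Finset.range (n0 * (2 * h) + 1),
        (((S.filter fun p => p.1 = n).card : ℕ) : ℝ) ≤ C1 * 2 ^ h * (B : ℝ) ^ (2 * h) := by
      intro n hn
      rw [Finset.mem_range] at hn
      have h3 : (S.filter fun p => p.1 = n).card =
          ((S.filter fun p => p.1 = n).image Prod.snd).card := by
        rw [Finset.card_image_of_injOn]
        intro p hp p' hp' he
        have e1 := (Finset.mem_filter.1 hp).2
        have e2 := (Finset.mem_filter.1 hp').2
        exact Prod.ext (e1.trans e2.symm) he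
      have h4 := ball_fib hTc hΔ hc 0 0 n (f 0 0) (a * (2 * h))
        ((S.filter fun p => p.1 = n).image Prod.snd) (by
          intro j hj
          obtain ⟨p, hp, rfl⟩ := Finset.mem_image.1 hj
          obtain ⟨hp1, rfl⟩ := Finset.mem_filter.1 hp
          exact (hS2 p hp1).2)
      rw [← h3, pow_mul, ← hB] at h4
      have h5 : ((S.filter fun p => p.1 = n).card : ℝ) ≤ (s n : ℝ) * (B : ℝ) ^ (2 * h) := by
        exact_mod_cast h4
      refine h5.trans (mul_le_mul_of_nonneg_right ?_ (by positivity))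
      refine (hC1 n).trans (mul_le_mul_of_nonneg_left ?_ hC1')
      have h6 : Real.log 2 / (2 * (n0 + 1)) * n ≤ h * Real.log 2 := by
        have h7 : (n : ℝ) ≤ n0 * (2 * h) := by exact_mod_cast (show n ≤ n0 * (2 * h) by omega)
        have h8 : (0 : ℝ) < 2 * (n0 + 1) := by positivity
        rw [div_mul_eq_mul_div, div_le_iff₀ h8]
        have h9 := Real.log_pos (by norm_num : (1 : ℝ) < 2)
        have h10 : (0 : ℝ) ≤ h := Nat.cast_nonneg h
        have h11 : Real.log 2 * n ≤ Real.log 2 * (n0 * (2 * h)) :=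
          mul_le_mul_of_nonneg_left h7 h9.le
        nlinarith [mul_nonneg h10 h9.le]
      calc Real.exp (Real.log 2 / (2 * (n0 + 1)) * n) ≤ Real.exp (h * Real.log 2) :=
            Real.exp_le_exp.2 h6
        _ = 2 ^ h := by rw [Real.exp_nat_mul, Real.exp_log (by norm_num)]
    have h3 : (S.card : ℝ) ≤ (n0 * (2 * h) + 1 : ℕ) * (C1 * 2 ^ h * (B : ℝ) ^ (2 * h)) := by
      have h4 : (S.card : ℝ) ≤ ∑ n ∈ Finset.range (n0 * (2 * h) + 1),
          (((S.filter fun p => p.1 = n).card : ℕ) : ℝ) := by exact_mod_cast h1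
      refine h4.trans ((Finset.sum_le_sum h2).trans ?_)
      rw [Finset.sum_const, Finset.card_range, nsmul_eq_mul]
    have h4 : ((2 * B : ℕ) : ℝ) ^ (2 * h) ≤ S.card := by exact_mod_cast hS1
    have hBpos : (0 : ℝ) < (B : ℝ) ^ (2 * h) := by
      have : 0 < B := by positivity
      positivity
    have h5 := h4.trans h3
    push_cast at h5
    rw [mul_pow] at h5
    have h6 : (2 : ℝ) ^ (2 * h) = 2 ^ h * 2 ^ h := by rw [two_mul, pow_add]
    rw [h6] at h5
    have h7 : (0 : ℝ) < 2 ^ h := by positivity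
    have h8 : (0 : ℝ) < 2 ^ h * (B : ℝ) ^ (2 * h) := by positivity
    refine le_of_mul_le_mul_right ?_ h8
    calc (2 : ℝ) ^ h * (2 ^ h * (B : ℝ) ^ (2 * h)) = 2 ^ h * 2 ^ h * (B : ℝ) ^ (2 * h) := by ring
      _ ≤ (n0 * (2 * h) + 1) * (C1 * 2 ^ h * (B : ℝ) ^ (2 * h)) := h5
      _ = (2 * n0 * h + 1) * C1 * (2 ^ h * (B : ℝ) ^ (2 * h)) := by ring
  -- exponential growth beats linear growth
  have hlim : Filter.Tendsto (fun n : ℕ => (n : ℝ) ^ 1 / (2 : ℝ) ^ n) Filter.atTop (nhds 0) :=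
    tendsto_pow_const_div_const_pow_of_one_lt 1 (by norm_num)
  have hpos : (0 : ℝ) < 1 / ((2 * n0 + 1) * (C1 + 1)) := by positivity
  obtain ⟨h, hh1, hh2⟩ := ((hlim.eventually (gt_mem_nhds hpos)).and
    (Filter.eventually_ge_atTop 1)).exists
  have h1 := main h
  have h2 : (0 : ℝ) < 2 ^ h := by positivity
  rw [pow_one, div_lt_div_iff₀ h2 (by positivity), one_mul] at hh1
  have h3 : (1 : ℝ) ≤ h := by exact_mod_cast hh2
  have h4 : (2 * (n0 : ℝ) * h + 1) * C1 ≤ h * ((2 * n0 + 1) * (C1 + 1)) := by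
    have h5 : (0 : ℝ) ≤ n0 := Nat.cast_nonneg _
    have h6 : (2 * (n0 : ℝ) * h + 1) ≤ h * (2 * n0 + 1) := by nlinarith
    have h7 : (2 * (n0 : ℝ) * h + 1) * C1 ≤ h * (2 * n0 + 1) * C1 :=
      mul_le_mul_of_nonneg_right h6 hC1'
    have h8 : 0 ≤ (h : ℝ) * (2 * n0 + 1) := by positivity
    nlinarith
  linarith

end Pool.Agent.H536R3.RM
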