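import Pool.Agent.H536R3.RM.Contra

set_option autoImplicit false
set_option linter.unusedVariables false

/-! The dyadic half-plane in the hyperbolic plane. -/

namespace Pool.Agent.H536R3.RM

open UpperHalfPlane

/-- the point of the hyperbolic plane attached to a vertex of the dyadic half-plane -/
noncomputable def P (k i : ℕ) : ℍ := ⟨⟨(i : ℝ) / 2 ^ k, 1 / 2 ^ k⟩, by
  change (0 : ℝ) < 1 / 2 ^ k; positivity⟩

theorem P_re (k i : ℕ) : (P k i).re = (i : ℝ) / 2 ^ k := rfl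

theorem P_im (k i : ℕ) : (P k i).im = 1 / 2 ^ k := rfl

theorem dist_le_cosh (z w : ℍ) : dist z w ≤ 2 * Real.cosh (dist z w) := by
  have h1 := Real.cosh_eq (dist z w)
  have h2 := Real.add_one_le_exp (dist z w)
  have h3 := Real.exp_pos (-dist z w)
  linarith

theorem P_hor (k i : ℕ) : dist (P k i) (P k (i + 1)) ≤ 3 := by
  refine (dist_le_cosh _ _).trans ?_
  rw [cosh_dist', P_re, P_re, P_im, P_im]
  have h : (0 : ℝ) < 2 ^ k := by positivity
  have : (((i : ℝ) / 2 ^ k - ((i + 1 : ℕ) : ℝ) / 2 ^ k) ^ 2 + (1 / 2 ^ k) ^ 2 + (1 / 2 ^ k) ^ 2) /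
      (2 * (1 / 2 ^ k) * (1 / 2 ^ k)) = 3 / 2 := by
    push_cast
    field_simp
    ring
  rw [this]; norm_num

theorem P_ver (k i : ℕ) : dist (P k (i / 2)) (P (k + 1) i) ≤ 3 := by
  refine (dist_le_cosh _ _).trans ?_
  rw [cosh_dist', P_re, P_re, P_im, P_im]
  have h : (0 : ℝ) < 2 ^ k := by positivity
  obtain ⟨q, hq | hq⟩ : ∃ q, i = 2 * q ∨ i = 2 * q + 1 := ⟨i / 2, by omega⟩
  · have e : i / 2 = q := by omega
    rw [e, hq]
    have : (((q : ℝ) / 2 ^ k - ((2 * q : ℕ) : ℝ) / 2 ^ (k + 1)) ^ 2 + (1 / 2 ^ k) ^ 2 +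
        (1 / 2 ^ (k + 1)) ^ 2) / (2 * (1 / 2 ^ k) * (1 / 2 ^ (k + 1))) = 5 / 4 := by
      push_cast
      rw [pow_succ]
      field_simp
      ring
    rw [this]; norm_num
  · have e : i / 2 = q := by omega
    rw [e, hq]
    have : (((q : ℝ) / 2 ^ k - ((2 * q + 1 : ℕ) : ℝ) / 2 ^ (k + 1)) ^ 2 + (1 / 2 ^ k) ^ 2 +
        (1 / 2 ^ (k + 1)) ^ 2) / (2 * (1 / 2 ^ k) * (1 / 2 ^ (k + 1))) = 3 / 2 := by
      push_cast
      rw [pow_succ]
      field_simp
      ring
    rw [this]; norm_num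

theorem card_le_diam (A : Finset ℕ) (D : ℕ) (h : ∀ a ∈ A, ∀ b ∈ A, b ≤ a + D) :
    A.card ≤ D + 1 := by
  rcases A.eq_empty_or_nonempty with rfl | hA
  · simp
  · have h1 : A ⊆ Finset.Icc (A.min' hA) (A.min' hA + D) := by
      intro b hb
      rw [Finset.mem_Icc]
      exact ⟨A.min'_le b hb, h _ (A.min'_mem hA) b hb⟩
    refine (Finset.card_le_card h1).trans ?_
    rw [Nat.card_Icc]
    omega

/-- balls of the hyperbolic plane contain boundedly many points `P k i` -/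
theorem P_count (c : ℝ) : ∃ N : ℕ, ∀ S : Finset (ℕ × ℕ),
    (∀ p ∈ S, ∀ p' ∈ S, dist (P p.1 p.2) (P p'.1 p'.2) ≤ c) → S.card ≤ N := by
  classical
  obtain ⟨m, hm⟩ := pow_unbounded_of_one_lt (2 * Real.cosh c) (one_lt_two : (1 : ℝ) < 2)
  refine ⟨(2 * 2 ^ m + 1 + 1) * (2 * m + 1), fun S hS => ?_⟩
  -- basic estimate
  have est : ∀ p ∈ S, ∀ p' ∈ S, (2 : ℝ) ^ p'.1 ≤ 2 ^ m * 2 ^ p.1 ∧
      |(p'.2 : ℝ) / 2 ^ p'.1 - (p.2 : ℝ) / 2 ^ p.1| ≤ 2 ^ m / 2 ^ p.1 := by
    intro p hp p' hp'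
    have h1 := hS p hp p' hp'
    have h2 : Real.cosh (dist (P p.1 p.2) (P p'.1 p'.2)) ≤ Real.cosh c := by
      rw [Real.cosh_le_cosh, abs_of_nonneg dist_nonneg]
      exact h1.trans (le_abs_self c)
    rw [cosh_dist', P_re, P_re, P_im, P_im] at h2
    have a1 : (0 : ℝ) < 1 / 2 ^ p.1 := by positivity
    have a2 : (0 : ℝ) < 1 / 2 ^ p'.1 := by positivity
    rw [div_le_iff₀ (by positivity)] at h2
    set y := (1 : ℝ) / 2 ^ p.1 with hy
    set y' := (1 : ℝ) / 2 ^ p'.1 with hy'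
    set dx := (p.2 : ℝ) / 2 ^ p.1 - (p'.2 : ℝ) / 2 ^ p'.1 with hdx
    have h3 : y ≤ 2 ^ m * y' := by
      have h4 : y * y ≤ (2 * Real.cosh c) * y' * y := by nlinarith [sq_nonneg dx, sq_nonneg y']
      have h5 := le_of_mul_le_mul_right h4 a1
      exact h5.trans (mul_le_mul_of_nonneg_right hm.le a2.le)
    have h3' : y' ≤ 2 ^ m * y := by
      have h4 : y' * y' ≤ (2 * Real.cosh c) * y * y' := by nlinarith [sq_nonneg dx, sq_nonneg y]
      have h5 := le_of_mul_le_mul_right h4 a2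
      exact h5.trans (mul_le_mul_of_nonneg_right hm.le a1.le)
    constructor
    · rw [hy, hy', mul_one_div, div_le_div_iff₀ (by positivity) (by positivity), one_mul] at h3
      exact h3
    · have h6 : dx ^ 2 ≤ (2 ^ m * y) ^ 2 := by
        have h7 : dx ^ 2 ≤ (2 * Real.cosh c) * y * y' := by nlinarith [sq_nonneg y, sq_nonneg y']
        have h8 : (2 * Real.cosh c) * y * y' ≤ 2 ^ m * y * (2 ^ m * y) := by
          apply mul_le_mul _ h3' a2.le (by positivity)
          exact mul_le_mul_of_nonneg_right hm.le a1.le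
        nlinarith
      have h9 := abs_le_of_sq_le_sq h6 (by positivity)
      rw [← abs_neg, hdx, neg_sub] at h9
      rw [hy, mul_one_div] at h9
      exact h9
  rcases S.eq_empty_or_nonempty with rfl | ⟨p0, hp0⟩
  · simp
  · have hk : ∀ p ∈ S, p.1 ≤ p0.1 + m ∧ p0.1 ≤ p.1 + m := by
      intro p hp
      have h1 := (est p0 hp0 p hp).1
      have h2 := (est p hp p0 hp0).1
      rw [← pow_add] at h1 h2
      have h3 := (pow_le_pow_iff_right₀ (one_lt_two : (1 : ℝ) < 2)).1 h1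
      have h4 := (pow_le_pow_iff_right₀ (one_lt_two : (1 : ℝ) < 2)).1 h2
      omega
    have h1 : S.card ≤ (2 * 2 ^ m + 1 + 1) * (S.image Prod.fst).card := by
      apply Finset.card_le_mul_card_image
      intro k hk'
      have h2 : (S.filter fun p => p.1 = k).card =
          ((S.filter fun p => p.1 = k).image Prod.snd).card := by
        rw [Finset.card_image_of_injOn]
        intro p hp p' hp' he
        have e1 := (Finset.mem_filter.1 hp).2
        have e2 := (Finset.mem_filter.1 hp').2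
        exact Prod.ext (e1.trans e2.symm) he
      rw [h2]
      apply card_le_diam
      intro a ha b hb
      obtain ⟨p, hp, rfl⟩ := Finset.mem_image.1 ha
      obtain ⟨p', hp', rfl⟩ := Finset.mem_image.1 hb
      obtain ⟨e1, e2⟩ := Finset.mem_filter.1 hp
      obtain ⟨e3, e4⟩ := Finset.mem_filter.1 hp'
      have h3 := (est p e1 p' e3).2
      rw [e2, e4, ← sub_div, abs_div] at h3
      have h4 : |(2 : ℝ) ^ k| = 2 ^ k := abs_of_pos (by positivity)
      rw [h4, div_le_div_iff_of_pos_right (by positivity)] at h3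
      have h5 := (le_abs_self _).trans h3
      have h6 : (p'.2 : ℝ) ≤ ((p.2 + (2 * 2 ^ m + 1) : ℕ) : ℝ) := by
        push_cast
        have : (0 : ℝ) ≤ 2 ^ m := by positivity
        linarith
      exact_mod_cast h6
    refine h1.trans (Nat.mul_le_mul_left _ ?_)
    apply card_le_diam
    intro a ha b hb
    obtain ⟨p, hp, rfl⟩ := Finset.mem_image.1 ha
    obtain ⟨p', hp', rfl⟩ := Finset.mem_image.1 hb
    have h2 := hk p hp
    have h3 := hk p' hp'
    omega

end Pool.Agent.H536R3.RM
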