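import Pool.Agent.H536R3.RM.Hyp

set_option autoImplicit false
set_option linter.unusedVariables false

/-! No regular map from the hyperbolic plane to a tree times a space of subexponential growth. -/

namespace Pool.Agent.H536R3.RM

open UpperHalfPlane

universe u v w

theorem dist_boxProd {W : Type u} {U : Type v} {T : SimpleGraph W} {Y : SimpleGraph U}
    (hT : T.Connected) (hY : Y.Connected) (x y : W × U) :
    (T.boxProd Y).dist x y = T.dist x.1 y.1 + Y.dist x.2 y.2 := by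
  have h1 := SimpleGraph.edist_boxProd (G := T) (H := Y) x y
  have h2 : ((T.boxProd Y).dist x y : ℕ∞) = (T.boxProd Y).edist x y :=
    SimpleGraph.Reachable.coe_dist_eq_edist ((hT.boxProd hY) x y)
  have h3 : (T.dist x.1 y.1 : ℕ∞) = T.edist x.1 y.1 := SimpleGraph.Reachable.coe_dist_eq_edist (hT x.1 y.1)
  have h4 : (Y.dist x.2 y.2 : ℕ∞) = Y.edist x.2 y.2 := SimpleGraph.Reachable.coe_dist_eq_edist (hY x.2 y.2)
  rw [← h2, ← h3, ← h4] at h1
  exact_mod_cast h1

theorem no_regular {V : Type u} {W : Type v} {U : Type w} {X : SimpleGraph V}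
    {T : SimpleGraph W} {Y : SimpleGraph U} (φ : V → ℍ) (K C : ℝ) (hK : 1 ≤ K) (hC : 0 ≤ C)
    (lo : ∀ x x', K⁻¹ * (X.dist x x' : ℝ) - C ≤ dist (φ x) (φ x'))
    (net : ∀ p, ∃ x, dist p (φ x) ≤ C) (hT : T.IsTree) (Δ : ℕ)
    (hΔ : ∀ (x : W) (s : Finset W), (∀ y ∈ s, T.Adj x y) → s.card ≤ Δ) (hY : Y.Connected)
    (growth : ∀ ε : ℝ, 0 < ε → ∃ C' : ℝ, ∀ (y : U) (r : ℕ) (S : Finset U),
      (∀ z ∈ S, Y.dist y z ≤ r) → (S.card : ℝ) ≤ C' * Real.exp (ε * r))
    (f : V → W × U) (κ : ℝ) (hκ : 0 ≤ κ)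
    (lip : ∀ x x', ((T.boxProd Y).dist (f x) (f x') : ℝ) ≤ κ * (X.dist x x' : ℝ) + κ)
    (fib : ∀ z (S : Finset V), (∀ x ∈ S, f x = z) → (S.card : ℝ) ≤ κ) : False := by
  classical
  have hTc := hT.connected
  choose ψ hψ using net
  let F : ℕ → ℕ → W × U := fun k i => f (ψ (P k i))
  -- Lipschitz bound
  obtain ⟨Λ, hΛ⟩ := exists_nat_gt (κ * (K * (3 * C + 3)) + κ)
  have hstep : ∀ p q : ℍ, dist p q ≤ 3 → (T.boxProd Y).dist (f (ψ p)) (f (ψ q)) ≤ Λ := by
    intro p q hpq
    have h1 := lo (ψ p) (ψ q)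
    have h2 : dist (φ (ψ p)) (φ (ψ q)) ≤ 2 * C + 3 := by
      have e1 := dist_triangle (φ (ψ p)) p (φ (ψ q))
      have e2 := dist_triangle p q (φ (ψ q))
      have e3 := hψ p
      have e4 := hψ q
      rw [dist_comm] at e3
      linarith
    have hK0 : 0 < K := by linarith
    have h3 : (X.dist (ψ p) (ψ q) : ℝ) ≤ K * (3 * C + 3) := by
      have e1 : K⁻¹ * (X.dist (ψ p) (ψ q) : ℝ) ≤ 3 * C + 3 := by linarith
      rwa [inv_mul_le_iff₀ hK0] at e1
    have h4 := lip (ψ p) (ψ q)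
    have h5 : κ * (X.dist (ψ p) (ψ q) : ℝ) ≤ κ * (K * (3 * C + 3)) :=
      mul_le_mul_of_nonneg_left h3 hκ
    have h6 : ((T.boxProd Y).dist (f (ψ p)) (f (ψ q)) : ℝ) ≤ Λ := by linarith
    exact_mod_cast h6
  have hor : ∀ k i, (T.boxProd Y).dist (F k i) (F k (i + 1)) ≤ Λ := fun k i => hstep _ _ (P_hor k i)
  have ver : ∀ k i, (T.boxProd Y).dist (F k (i / 2)) (F (k + 1) i) ≤ Λ :=
    fun k i => hstep _ _ (P_ver k i)
  simp only [dist_boxProd hTc hY] at hor ver
  have verY : ∀ k n j, Y.dist (F k (j / 2 ^ n)).2 (F (k + n) j).2 ≤ Λ * n := by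
    intro k n
    induction n with
    | zero => intro j; simp
    | succ n ih =>
      intro j
      have h1 := ver (k + n) j
      have h2 := ih (j / 2)
      rw [Nat.div_div_eq_div_mul, ← pow_succ'] at h2
      have h3 := hY.dist_triangle (u := (F k (j / 2 ^ (n + 1))).2) (v := (F (k + n) (j / 2)).2)
        (w := (F (k + n + 1) j).2)
      rw [mul_add, ← add_assoc]
      omega
  -- fibres
  obtain ⟨N0, hN0⟩ := P_count (2 * C)
  obtain ⟨κn, hκn⟩ := exists_nat_gt κ
  have hfib : ∀ (k : ℕ) (z : W × U) (S : Finset ℕ), (∀ j ∈ S, F k j = z) →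
      S.card ≤ N0 * κn := by
    intro k z S hS
    have h1 : S.card ≤ N0 * (S.image fun j => ψ (P k j)).card := by
      apply Finset.card_le_mul_card_image
      intro x hx
      have h2 : (S.filter fun j => ψ (P k j) = x).card =
          ((S.filter fun j => ψ (P k j) = x).image fun j => (k, j)).card :=
        (Finset.card_image_of_injective _ (fun a b h => (Prod.mk.inj h).2)).symm
      rw [h2]
      apply hN0
      intro p hp p' hp'
      obtain ⟨j, hj, rfl⟩ := Finset.mem_image.1 hp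
      obtain ⟨j', hj', rfl⟩ := Finset.mem_image.1 hp'
      have e1 := hψ (P k j)
      have e2 := hψ (P k j')
      rw [(Finset.mem_filter.1 hj).2] at e1
      rw [(Finset.mem_filter.1 hj').2] at e2
      have e3 := dist_triangle (P k j) (φ x) (P k j')
      rw [dist_comm (φ x)] at e3
      linarith
    refine h1.trans (Nat.mul_le_mul_left _ ?_)
    have h3 := fib z (S.image fun j => ψ (P k j)) (by
      intro x hx
      obtain ⟨j, hj, rfl⟩ := Finset.mem_image.1 hx
      exact hS j hj)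
    have h4 : ((S.image fun j => ψ (P k j)).card : ℝ) ≤ κn := by linarith
    exact_mod_cast h4
  -- growth of `Y`
  have hb : ∀ r : ℕ, ∃ B : ℕ, ∀ (y : U) (S : Finset U), (∀ z ∈ S, Y.dist y z ≤ r) →
      S.card ≤ B := by
    intro r
    obtain ⟨C', hC'⟩ := growth 1 one_pos
    obtain ⟨B, hB⟩ := exists_nat_gt (C' * Real.exp (1 * r))
    refine ⟨B, fun y S hS => ?_⟩
    have h1 := hC' y r S hS
    have h2 : (S.card : ℝ) ≤ B := by linarith
    exact_mod_cast h2
  let b : ℕ → ℕ := fun r => Nat.find (hb r)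
  have hbs : ∀ r (y : U) (S : Finset U), (∀ z ∈ S, Y.dist y z ≤ r) → S.card ≤ b r :=
    fun r => Nat.find_spec (hb r)
  have hbg : ∀ ε : ℝ, 0 < ε → ∃ C' : ℝ, 0 ≤ C' ∧ ∀ r : ℕ, (b r : ℝ) ≤ C' * Real.exp (ε * r) := by
    intro ε hε
    obtain ⟨C', hC'⟩ := growth ε hε
    refine ⟨max C' 0, le_max_right _ _, fun r => ?_⟩
    have hexp := Real.exp_pos (ε * r)
    have h0 : 0 ≤ max C' 0 * Real.exp (ε * r) := mul_nonneg (le_max_right _ _) hexp.le
    have h1 : b r ≤ ⌊max C' 0 * Real.exp (ε * r)⌋₊ := by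
      apply Nat.find_min'
      intro y S hS
      apply Nat.le_floor
      refine (hC' y r S hS).trans ?_
      exact mul_le_mul_of_nonneg_right (le_max_left _ _) hexp.le
    have h2 : (b r : ℝ) ≤ (⌊max C' 0 * Real.exp (ε * r)⌋₊ : ℝ) := by exact_mod_cast h1
    exact h2.trans (Nat.floor_le h0)
  have hcond : Cond T (fun k i => (F k i).1) Λ (fun n => N0 * κn * b (Λ * n)) := by
    refine ⟨?_, ?_, ?_⟩
    · intro k i
      have := hor k i
      omega
    · intro k i
      have := ver k i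
      omega
    · intro k i n t S hS
      have h1 : S.card ≤ N0 * κn * (S.image fun j => F (k + n) j).card := by
        apply Finset.card_le_mul_card_image
        intro z hz
        apply hfib (k + n) z
        intro j hj
        exact (Finset.mem_filter.1 hj).2
      refine h1.trans (Nat.mul_le_mul_left _ ?_)
      have h2 : (S.image fun j => F (k + n) j).card =
          ((S.image fun j => F (k + n) j).image Prod.snd).card := by
        refine (Finset.card_image_of_injOn ?_).symm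
        intro z hz z' hz' he
        obtain ⟨j, hj, rfl⟩ := Finset.mem_image.1 hz
        obtain ⟨j', hj', rfl⟩ := Finset.mem_image.1 hz'
        exact Prod.ext ((hS j hj).2.trans (hS j' hj').2.symm) he
      rw [h2]
      apply hbs (Λ * n) (F k i).2
      intro y hy
      obtain ⟨z, hz, rfl⟩ := Finset.mem_image.1 hy
      obtain ⟨j, hj, rfl⟩ := Finset.mem_image.1 hz
      have h3 := verY k n j
      rw [(hS j hj).1] at h3
      exact h3
  refine no_thin hT hΔ hcond ?_
  intro ε hε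
  have hε' : 0 < ε / (Λ + 1) := by positivity
  obtain ⟨C', hC'0, hC'⟩ := hbg _ hε'
  refine ⟨(N0 * κn : ℕ) * C', fun n => ?_⟩
  push_cast
  have h1 := hC' (Λ * n)
  have h2 : ε / (Λ + 1) * ((Λ * n : ℕ) : ℝ) ≤ ε * n := by
    push_cast
    have h3 : (0 : ℝ) < Λ + 1 := by positivity
    rw [div_mul_eq_mul_div, div_le_iff₀ h3]
    have h4 : (0 : ℝ) ≤ n := Nat.cast_nonneg n
    nlinarith [mul_nonneg hε.le h4]
  have h3 : C' * Real.exp (ε / (Λ + 1) * ((Λ * n : ℕ) : ℝ)) ≤ C' * Real.exp (ε * n) :=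
    mul_le_mul_of_nonneg_left (Real.exp_le_exp.2 h2) hC'0
  have h4 : (0 : ℝ) ≤ (N0 : ℝ) * κn := by positivity
  calc (N0 : ℝ) * κn * (b (Λ * n) : ℝ) ≤ (N0 : ℝ) * κn * (C' * Real.exp (ε * n)) :=
        mul_le_mul_of_nonneg_left (h1.trans h3) h4
    _ = (N0 : ℝ) * κn * C' * Real.exp (ε * n) := by ring

end Pool.Agent.H536R3.RM
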