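import Pool.Agent.H536R3.RM.Spread
import Pool.Agent.H536R3.RM.Change

set_option autoImplicit false
set_option linter.unusedVariables false

/-! Many incomparable descendants with nearby values. -/

namespace Pool.Agent.H536R3.RM

universe u

variable {V : Type u} {T : SimpleGraph V} {f : ℕ → ℕ → V} {Λ : ℕ} {s : ℕ → ℕ}

theorem gateH (hT : T.Connected) (t0 h : V) : ∀ t, t ∉ {t | Thr T t0 h t} →
    ∀ t' ∈ {t | Thr T t0 h t}, T.dist t h + T.dist h t' = T.dist t t' :=
  fun _ h1 _ h2 => gate hT h1 h2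

theorem many (hT : T.IsTree) {Δ : ℕ}
    (hΔ : ∀ (x : V) (s : Finset V), (∀ y ∈ s, T.Adj x y) → s.card ≤ Δ)
    (hc : Cond T f Λ s) (C0 : ℝ) (hs : ∀ n, (s n : ℝ) ≤ C0 * (3 / 2) ^ n) :
    ∃ a : ℕ, ∀ M : ℕ, ∃ n0 : ℕ, ∀ k i, ∃ S : Finset (ℕ × ℕ), M ≤ S.card ∧
      (∀ p ∈ S, p.1 ≤ n0 ∧ p.2 / 2 ^ p.1 = i ∧ T.dist (f k i) (f (k + p.1) p.2) ≤ a) ∧
      (∀ p ∈ S, ∀ p' ∈ S, p'.1 ≤ p.1 → p.2 / 2 ^ (p.1 - p'.1) = p'.2 → p = p') := by
  classical
  have hTc := hT.connected
  obtain ⟨a0, ha0, hsp⟩ := spread hTc hΔ hc C0 hs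
  refine ⟨2 * a0 + 4 * Λ, fun M => ?_⟩
  set w := M + 8 with hw
  set Sn := (M + 2) * (M + 2) with hSn
  refine ⟨w * Sn, fun k i => ?_⟩
  set n0 := w * Sn with hn0
  set t0 := f k i with ht0
  set Cen := (Finset.Ico (2 ^ n0 * i) (2 ^ n0 * (i + 1))).filter
    (fun j => T.dist t0 (f (k + n0) j) ≤ a0 + Λ) with hCen
  by_cases hM : M ≤ Cen.card
  · refine ⟨Cen.image fun j => (n0, j), ?_, ?_, ?_⟩
    · rw [Finset.card_image_of_injective _ (fun a b h => (Prod.mk.inj h).2)]
      exact hM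
    · intro p hp
      obtain ⟨j, hj, rfl⟩ := Finset.mem_image.1 hp
      obtain ⟨h1, h2⟩ := Finset.mem_filter.1 hj
      exact ⟨le_rfl, mem_dn.1 h1, by simp only; omega⟩
    · intro p hp p' hp' h1 h2
      obtain ⟨j, hj, rfl⟩ := Finset.mem_image.1 hp
      obtain ⟨j', hj', rfl⟩ := Finset.mem_image.1 hp'
      simp only [Nat.sub_self, pow_zero, Nat.div_one] at h2
      rw [h2]
  push Not at hM
  set N : ℕ := 2 ^ n0 with hN
  set C : Finset ℤ := insert (-1) (insert (N : ℤ) (Cen.image fun j : ℕ => (j : ℤ) - (N * i : ℕ)))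
    with hC
  have hCcard : C.card ≤ M + 1 := by
    have h1 := Finset.card_insert_le (-1 : ℤ)
      (insert (N : ℤ) (Cen.image fun j : ℕ => (j : ℤ) - (N * i : ℕ)))
    have h2 := Finset.card_insert_le (N : ℤ) (Cen.image fun j : ℕ => (j : ℤ) - (N * i : ℕ))
    have h3 : (Cen.image fun j : ℕ => (j : ℤ) - (N * i : ℕ)).card ≤ Cen.card :=
      Finset.card_image_le
    rw [hC]
    omega
  obtain ⟨sc, hsc, hgap⟩ := scale C w Sn (by nlinarith) (by omega)
  set Ln : ℕ := 2 ^ (w * sc) with hLn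
  have hLn1 : 1 ≤ Ln := Nat.one_le_two_pow
  have h2w : 2 ^ w = 2 ^ M * 256 := by rw [hw, pow_add]; norm_num
  have hL' : 2 ^ (w * (sc + 1)) = Ln * (2 ^ M * 256) := by
    rw [mul_add, mul_one, pow_add, h2w]
  have hL'z : (2 : ℤ) ^ (w * (sc + 1)) = Ln * (2 ^ M * 256) := by exact_mod_cast hL'
  have hLz : (2 : ℤ) ^ (w * sc) = (Ln : ℤ) := by exact_mod_cast hLn.symm
  have hM2 : M + 1 ≤ 2 ^ M := Nat.lt_two_pow_self
  have hNL : Ln * (2 ^ M * 256) ≤ N := by
    rw [← hL', hN, hn0]
    exact Nat.pow_le_pow_right (by norm_num) (Nat.mul_le_mul_left _ hsc)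
  set P : ℕ := 2 ^ M with hP
  have hLP : Ln ≤ Ln * P := Nat.le_mul_of_pos_right _ (by omega)
  -- values at depth `n0`
  let g : ℤ → V := fun x => f (k + n0) (N * i + x.toNat)
  have hcen : ∀ x : ℤ, 0 ≤ x → x < N → x ∉ C → a0 + Λ < T.dist t0 (g x) := by
    intro x hx0 hxN hxC
    by_contra hcon
    push Not at hcon
    apply hxC
    rw [hC, Finset.mem_insert, Finset.mem_insert, Finset.mem_image]
    right; right
    refine ⟨N * i + x.toNat, Finset.mem_filter.2 ⟨?_, hcon⟩, by push_cast; omega⟩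
    rw [Finset.mem_Ico, ← hN, mul_add, mul_one]
    omega
  have hex : ∀ x : ℤ, ∃ h : V, a0 ≤ T.dist t0 (g x) → T.dist t0 h = a0 ∧ Thr T t0 h (g x) := by
    intro x
    by_cases hx : a0 ≤ T.dist t0 (g x)
    · obtain ⟨h, h1, h2⟩ := exists_color hT hx
      exact ⟨h, fun _ => ⟨h1, h2⟩⟩
    · exact ⟨t0, fun h => absurd h hx⟩
  choose col hcolspec using hex
  have hcs : ∀ x : ℤ, 0 ≤ x → x < N → x ∉ C → T.dist t0 (col x) = a0 ∧ Thr T t0 (col x) (g x) :=
    fun x h1 h2 h3 => hcolspec x (by have := hcen x h1 h2 h3; omega)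
  have hcol : ∀ x : ℤ, 0 ≤ x → x + 1 < N → x ∉ C → x + 1 ∉ C → col x = col (x + 1) := by
    intro x hx0 hxN hxC hxC'
    have h1 := hcs x hx0 (by omega) hxC
    have h2 := hcs (x + 1) (by omega) hxN hxC'
    have h3 := hcen x hx0 (by omega) hxC
    have h4 : T.dist (g x) (g (x + 1)) ≤ Λ := by
      have h5 := hc.hor (k + n0) (N * i + x.toNat)
      have h6 : N * i + (x + 1).toNat = N * i + x.toNat + 1 := by omega
      simp only [g, h6]
      exact h5
    exact color_unique hTc (thr_near hTc h1.2 h4 (by omega)) h2.2 (by rw [h1.1, h2.1])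
  have hnself : ∀ h : V, T.dist t0 h = a0 → t0 ∉ {t | Thr T t0 h t} := by
    intro h hh
    apply not_thr_self
    rintro rfl
    rw [SimpleGraph.dist_self] at hh
    omega
  -- two good positions of different colours
  have hne : ∃ x y : ℤ, 0 ≤ x ∧ x < y ∧ y < N ∧ Good C Ln x ∧ Good C Ln y ∧ col x ≠ col y := by
    by_contra hcon
    push Not at hcon
    set Gd := (Finset.Ico (0 : ℤ) N).filter fun x => Good C Ln x with hGd
    have hall : ∀ x ∈ Gd, ∀ y ∈ Gd, col x = col y := by
      intro x hx y hy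
      rw [hGd, Finset.mem_filter, Finset.mem_Ico] at hx hy
      rcases lt_trichotomy x y with h | h | h
      · exact hcon x y hx.1.1 h hy.1.2 hx.2 hy.2
      · rw [h]
      · exact (hcon y x hy.1.1 h hx.1.2 hy.2 hx.2).symm
    have hbad := bad_count C Ln ((Finset.Ico (0 : ℤ) N).filter fun x => ¬ Good C Ln x)
      (fun x hx => (Finset.mem_filter.1 hx).2)
    have htot : Gd.card + ((Finset.Ico (0 : ℤ) N).filter fun x => ¬ Good C Ln x).card = N := by
      rw [hGd, Finset.card_filter_add_card_filter_not, Int.card_Ico]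
      simp
    have h1 : C.card * (2 * Ln + 1) ≤ (M + 1) * (2 * Ln + 1) := Nat.mul_le_mul_right _ hCcard
    have h2 : (M + 1) * (2 * Ln + 1) ≤ P * (3 * Ln) :=
      Nat.mul_le_mul hM2 (by omega)
    have h3 : P * (3 * Ln) = 3 * (Ln * P) := by ring
    have h4 : Ln * (P * 256) = 256 * (Ln * P) := by ring
    have h5 : N < 4 * Gd.card := by
      have h6 : 1 ≤ Ln * P := hLn1.trans hLP
      omega
    have hne : Gd.Nonempty := by
      rw [← Finset.card_pos]; omega
    obtain ⟨x0, hx0⟩ := hne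
    have hnC : ∀ x ∈ Gd, 0 ≤ x ∧ x < N ∧ x ∉ C := by
      intro x hx
      rw [hGd, Finset.mem_filter, Finset.mem_Ico] at hx
      refine ⟨hx.1.1, hx.1.2, fun hxC => ?_⟩
      have := hx.2 x hxC
      rw [sub_self, abs_zero] at this
      omega
    have hx0' := hcs x0 (hnC x0 hx0).1 (hnC x0 hx0).2.1 (hnC x0 hx0).2.2
    have h6 := hsp k i {t | Thr T t0 (col x0) t} (col x0) (gateH hTc t0 (col x0))
      (hnself _ hx0'.1) (by rw [← ht0, hx0'.1]) n0 (Gd.image fun x => N * i + x.toNat) (by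
        intro j hj
        obtain ⟨x, hx, rfl⟩ := Finset.mem_image.1 hj
        obtain ⟨b1, b2, b3⟩ := hnC x hx
        refine ⟨mem_dn.1 ?_, ?_⟩
        · rw [Finset.mem_Ico, ← hN, mul_add, mul_one]
          omega
        · have := (hcs x b1 b2 b3).2
          rw [hall x hx x0 hx0] at this
          exact this)
    rw [Finset.card_image_of_injOn] at h6
    · omega
    · intro x hx y hy hxy
      have b1 := (hnC x hx).1
      have b2 := (hnC y hy).1
      simp only at hxy
      omega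
  obtain ⟨x, y, hx0, hxy, hyN, hgx, hgy, hxyc⟩ := hne
  have hbig : (2 : ℤ) * Ln + 1 ≤ Ln * (P * 256) := by
    have h1 : Ln * (P * 256) = 256 * (Ln * P) := by ring
    exact_mod_cast (show 2 * Ln + 1 ≤ Ln * (P * 256) by omega)
  obtain ⟨u, v, huv, hlen, hu0, hvN, huvc, hpu, hpv⟩ := change C N Ln (Ln * (P * 256))
    (by positivity) hbig (by rw [hC]; exact Finset.mem_insert_self _ _)
    (by rw [hC]; exact Finset.mem_insert_of_mem (Finset.mem_insert_self _ _))
    (by
      intro c h1 c' h2 h3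
      have := hgap c h1 c' h2 h3
      rw [hLz, hL'z] at this
      exact this)
    col hcol x y hx0 hxy hyN hgx hgy hxyc
  obtain ⟨u, rfl⟩ := Int.eq_ofNat_of_zero_le (show 0 ≤ u by omega)
  obtain ⟨v, rfl⟩ := Int.eq_ofNat_of_zero_le (show 0 ≤ v by omega)
  -- colours at `u` and `v`
  set D := Ln * (P * 256) - Ln - 1 with hD
  have hDz : ((Ln : ℤ) * (P * 256) - Ln - 1) = (D : ℤ) := by
    have h1 : Ln * (P * 256) = 256 * (Ln * P) := by ring
    have h2 : (D : ℤ) + Ln + 1 = ((Ln * (P * 256) : ℕ) : ℤ) := by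
      exact_mod_cast (show D + Ln + 1 = Ln * (P * 256) by omega)
    push_cast at h2
    linarith
  rw [hDz] at hu0 hvN hpu hpv
  have hvspec := hcs v (by omega) (by omega) (hpv v le_rfl (by omega)).1
  have huspec := hcs u (by omega) (by omega) (hpu u (by omega) le_rfl).1
  -- a vertex all of whose descendants lie in a half-tree is in it or near to it
  have pure : ∀ (n e idx : ℕ) (h : V), n + e = n0 → T.dist t0 h = a0 →
      (∀ j, j / 2 ^ e = idx → Thr T t0 h (f (k + n0) j)) →
      Thr T t0 h (f (k + n) idx) ∨ T.dist (f (k + n) idx) h < a0 := by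
    intro n e idx h hne hh hall
    by_contra hcon
    push Not at hcon
    have h1 := hsp (k + n) idx {t | Thr T t0 h t} h (gateH hTc t0 h) hcon.1 hcon.2 e
      (Finset.Ico (2 ^ e * idx) (2 ^ e * (idx + 1))) (by
        intro j hj
        refine ⟨mem_dn.1 hj, ?_⟩
        have h2 : k + n + e = k + n0 := by omega
        rw [h2]
        exact hall j (mem_dn.1 hj))
    rw [card_dn] at h1
    have h2 : 0 < 2 ^ e := by positivity
    omega
  have hclose : ∀ q < M, ∀ e, e = w * sc + 3 + q → e ≤ n0 ∧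
      ((N * i + v) / 2 ^ e + 2) / 2 ^ (n0 - e) = i ∧
      T.dist t0 (f (k + (n0 - e)) ((N * i + v) / 2 ^ e + 2)) ≤ 2 * a0 + 4 * Λ := by
    intro q hq e he
    have hen0 : e ≤ n0 := by
      have h1 : w * (sc + 1) ≤ n0 := Nat.mul_le_mul_left _ hsc
      rw [mul_add, mul_one] at h1
      omega
    set m := 2 ^ e with hm
    have hm1 : 8 * Ln ≤ m := by
      rw [hm, he, pow_add, pow_add, ← hLn]
      have h1 : 1 ≤ 2 ^ q := Nat.one_le_two_pow
      nlinarith
    have hm2 : 8 * m ≤ D := by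
      have h1 : 2 ^ q ≤ P := Nat.pow_le_pow_right (by norm_num) hq.le
      have h2 : m = Ln * 8 * 2 ^ q := by
        rw [hm, he, pow_add, pow_add, ← hLn]; norm_num
      have h3 : Ln * 8 * 2 ^ q ≤ Ln * 8 * P := Nat.mul_le_mul_left _ h1
      have h4 : Ln * 8 * P = 8 * (Ln * P) := by ring
      have h5 : Ln * (P * 256) = 256 * (Ln * P) := by ring
      omega
    have hmpos : 0 < m := by omega
    have hNm : 2 ^ (n0 - e) * m = N := by
      rw [hm, hN, ← pow_add]; congr 1; omega
    set Vi := (N * i + v) / m with hVi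
    set Ui := (N * i + u) / m with hUi
    have b1 : Vi * m ≤ N * i + v := Nat.div_mul_le_self _ _
    have b2 : N * i + v < Vi * m + m := Nat.lt_div_mul_add hmpos
    have b3 : Ui * m ≤ N * i + u := Nat.div_mul_le_self _ _
    have b4 : N * i + u < Ui * m + m := Nat.lt_div_mul_add hmpos
    have hUV : Vi ≤ Ui + 1 := by
      by_contra hcon
      have h1 : Ui + 2 ≤ Vi := by omega
      have h2 : (Ui + 2) * m ≤ Vi * m := Nat.mul_le_mul_right _ h1
      rw [add_mul] at h2
      omega
    have hUV' : Ui ≤ Vi := Nat.div_le_div_right (by omega)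
    have hUi1 : 1 ≤ Ui := by
      rw [hUi, Nat.le_div_iff_mul_le hmpos]
      omega
    have hY := pure (n0 - e) e (Vi + 2) (col v) (by omega) hvspec.1 (by
      intro j hj
      have c1 : (Vi + 2) * m ≤ j := by rw [← hj]; exact Nat.div_mul_le_self _ _
      have c2 : j < (Vi + 2) * m + m := by rw [← hj]; exact Nat.lt_div_mul_add hmpos
      rw [add_mul] at c1 c2
      have h1 := hpv ((j : ℤ) - (N * i : ℕ)) (by omega) (by omega)
      have h2 := hcs ((j : ℤ) - (N * i : ℕ)) (by omega) (by omega) h1.1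
      have h3 : N * i + ((j : ℤ) - (N * i : ℕ)).toNat = j := by omega
      have h4 := h2.2
      rw [h1.2] at h4
      simp only [g, h3] at h4
      exact h4)
    have hZ := pure (n0 - e) e (Ui - 1) (col u) (by omega) huspec.1 (by
      intro j hj
      have c1 : (Ui - 1) * m ≤ j := by rw [← hj]; exact Nat.div_mul_le_self _ _
      have c2 : j < (Ui - 1) * m + m := by rw [← hj]; exact Nat.lt_div_mul_add hmpos
      have c3 : (Ui - 1) * m + m = Ui * m := by
        rw [← Nat.succ_mul]; congr 1; omega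
      have h1 := hpu ((j : ℤ) - (N * i : ℕ)) (by omega) (by omega)
      have h2 := hcs ((j : ℤ) - (N * i : ℕ)) (by omega) (by omega) h1.1
      have h3 : N * i + ((j : ℤ) - (N * i : ℕ)).toNat = j := by omega
      have h4 := h2.2
      rw [h1.2] at h4
      simp only [g, h3] at h4
      exact h4)
    have hd : T.dist (f (k + (n0 - e)) (Ui - 1)) (f (k + (n0 - e)) (Vi + 2)) ≤ 4 * Λ := by
      obtain ⟨r, hr⟩ : ∃ r, Vi + 2 = (Ui - 1) + r := ⟨Vi + 2 - (Ui - 1), by omega⟩
      rw [hr]
      refine (hc.hor_n hTc _ _ r).trans ?_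
      rw [mul_comm]
      exact Nat.mul_le_mul_right _ (by omega)
    refine ⟨hen0, ?_, ?_⟩
    · have h1 : (Vi + 2) * m / 2 ^ n0 = i := by
        apply mem_dn.1
        rw [Finset.mem_Ico, ← hN, mul_add, mul_one, add_mul]
        omega
      rw [← h1, ← hN, ← hNm]
      exact (Nat.mul_div_mul_right _ _ hmpos).symm
    · set fy := f (k + (n0 - e)) (Vi + 2) with hfy
      set fz := f (k + (n0 - e)) (Ui - 1) with hfz
      by_cases hy : Thr T t0 (col v) fy
      · by_cases hz : Thr T t0 (col u) fz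
        · have h1 : ¬ Thr T t0 (col v) fz := by
            intro h2
            exact huvc (color_unique hTc hz h2 (by rw [huspec.1, hvspec.1]))
          have h2 := gate hTc h1 hy
          have h3 := hTc.dist_triangle (u := t0) (v := col v) (w := fy)
          omega
        · have h1 := hZ.resolve_left hz
          have h2 := hTc.dist_triangle (u := t0) (v := col u) (w := fz)
          have h3 := hTc.dist_triangle (u := t0) (v := fz) (w := fy)
          have h4 : T.dist (col u) fz = T.dist fz (col u) := SimpleGraph.dist_comm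
          omega
      · have h1 := hY.resolve_left hy
        have h2 := hTc.dist_triangle (u := t0) (v := col v) (w := fy)
        have h3 : T.dist (col v) fy = T.dist fy (col v) := SimpleGraph.dist_comm
        omega
  refine ⟨(Finset.range M).image fun q =>
    (n0 - (w * sc + 3 + q), (N * i + v) / 2 ^ (w * sc + 3 + q) + 2), ?_, ?_, ?_⟩
  · rw [Finset.card_image_of_injOn, Finset.card_range]
    intro q hq q' hq' he
    have h1 := (hclose q (Finset.mem_range.1 hq) _ rfl).1
    have h2 := (hclose q' (Finset.mem_range.1 hq') _ rfl).1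
    have h3 := (Prod.mk.inj he).1
    omega
  · intro p hp
    obtain ⟨q, hq, rfl⟩ := Finset.mem_image.1 hp
    obtain ⟨h1, h2, h3⟩ := hclose q (Finset.mem_range.1 hq) _ rfl
    exact ⟨Nat.sub_le _ _, h2, h3⟩
  · intro p hp p' hp' h1 h2
    obtain ⟨q, hq, rfl⟩ := Finset.mem_image.1 hp
    obtain ⟨q', hq', rfl⟩ := Finset.mem_image.1 hp'
    have e1 := (hclose q (Finset.mem_range.1 hq) _ rfl).1
    have e2 := (hclose q' (Finset.mem_range.1 hq') _ rfl).1
    simp only at h1 h2
    have hqq : q ≤ q' := by omega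
    rcases Nat.eq_or_lt_of_le hqq with h3 | h3
    · rw [h3]
    · exfalso
      obtain ⟨r, rfl⟩ := Nat.exists_eq_add_of_lt h3
      have h4 : n0 - (w * sc + 3 + q) - (n0 - (w * sc + 3 + (q + r + 1))) = r + 1 := by omega
      have h5 : w * sc + 3 + (q + r + 1) = w * sc + 3 + q + (r + 1) := by ring
      have h7 : (N * i + v) / 2 ^ (w * sc + 3 + (q + r + 1)) =
          (N * i + v) / 2 ^ (w * sc + 3 + q) / 2 ^ (r + 1) := by
        rw [h5, pow_add, ← Nat.div_div_eq_div_mul]
      rw [h4, h7] at h2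
      set A := (N * i + v) / 2 ^ (w * sc + 3 + q) with hA
      have h6 : (A + 2) / 2 ^ (r + 1) ≤ (A + 2 ^ (r + 1)) / 2 ^ (r + 1) := by
        apply Nat.div_le_div_right
        have : 2 ^ 1 ≤ 2 ^ (r + 1) := Nat.pow_le_pow_right (by norm_num) (by omega)
        omega
      rw [Nat.add_div_right _ (by positivity)] at h6
      omega

end Pool.Agent.H536R3.RM
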