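import Pool.Agent.H536R3.RM.Tree

set_option autoImplicit false
set_option linter.unusedVariables false

/-! Maps of the dyadic half-plane to a tree with thin fibres: most descendants stay away from a
far half-tree. -/

namespace Pool.Agent.H536R3.RM

universe u

variable {V : Type u} {T : SimpleGraph V}

/-- `f` is coarsely Lipschitz on the dyadic half-plane and its fibres have growth at most `s` -/
structure Cond (T : SimpleGraph V) (f : ℕ → ℕ → V) (Λ : ℕ) (s : ℕ → ℕ) : Prop where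
  hor : ∀ k i, T.dist (f k i) (f k (i + 1)) ≤ Λ
  ver : ∀ k i, T.dist (f k (i / 2)) (f (k + 1) i) ≤ Λ
  fib : ∀ k i n (t : V) (S : Finset ℕ), (∀ j ∈ S, j / 2 ^ n = i ∧ f (k + n) j = t) → S.card ≤ s n

variable {f : ℕ → ℕ → V} {Λ : ℕ} {s : ℕ → ℕ}

theorem Cond.hor_n (hT : T.Connected) (hc : Cond T f Λ s) (k i : ℕ) :
    ∀ m, T.dist (f k i) (f k (i + m)) ≤ Λ * m := by
  intro m
  induction m with
  | zero => simp
  | succ m ih =>
    have h1 := hc.hor k (i + m)
    have h2 := hT.dist_triangle (u := f k i) (v := f k (i + m)) (w := f k (i + m + 1))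
    rw [mul_add, ← add_assoc]
    omega

theorem Cond.ver_n (hT : T.Connected) (hc : Cond T f Λ s) (k : ℕ) :
    ∀ n j, T.dist (f k (j / 2 ^ n)) (f (k + n) j) ≤ Λ * n := by
  intro n
  induction n with
  | zero => intro j; simp
  | succ n ih =>
    intro j
    have h1 := hc.ver (k + n) j
    have h2 := ih (j / 2)
    rw [Nat.div_div_eq_div_mul, ← pow_succ'] at h2
    have h3 := hT.dist_triangle (u := f k (j / 2 ^ (n + 1))) (v := f (k + n) (j / 2))
      (w := f (k + n + 1) j)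
    rw [mul_add, ← add_assoc]
    omega

theorem mem_dn {n i j : ℕ} : j ∈ Finset.Ico (2 ^ n * i) (2 ^ n * (i + 1)) ↔ j / 2 ^ n = i := by
  have hpos : 0 < 2 ^ n := by positivity
  rw [Finset.mem_Ico]
  constructor
  · rintro ⟨h1, h2⟩
    apply Nat.div_eq_of_lt_le
    · rw [mul_comm]; exact h1
    · rw [mul_comm]; exact h2
  · rintro rfl
    constructor
    · exact Nat.mul_div_le j (2 ^ n)
    · exact Nat.lt_mul_div_succ j hpos

theorem card_dn (n i : ℕ) : (Finset.Ico (2 ^ n * i) (2 ^ n * (i + 1))).card = 2 ^ n := by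
  rw [Nat.card_Ico, mul_add, mul_one, Nat.add_sub_cancel_left]

theorem ball_fib (hT : T.Connected) {Δ : ℕ}
    (hΔ : ∀ (x : V) (s : Finset V), (∀ y ∈ s, T.Adj x y) → s.card ≤ Δ)
    (hc : Cond T f Λ s) (k i n : ℕ) (h : V) (r : ℕ) (S : Finset ℕ)
    (hS : ∀ j ∈ S, j / 2 ^ n = i ∧ T.dist h (f (k + n) j) ≤ r) :
    S.card ≤ s n * (Δ + 1) ^ r := by
  classical
  have h1 : S.card ≤ s n * (S.image fun j => f (k + n) j).card := by
    apply Finset.card_le_mul_card_image
    intro t ht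
    apply hc.fib k i n t
    intro j hj
    rw [Finset.mem_filter] at hj
    exact ⟨(hS j hj.1).1, hj.2⟩
  refine h1.trans (Nat.mul_le_mul_left _ ?_)
  apply ball_bd hT Δ hΔ r h
  intro y hy
  obtain ⟨j, hj, rfl⟩ := Finset.mem_image.1 hy
  exact (hS j hj).2

theorem spread (hT : T.Connected) {Δ : ℕ}
    (hΔ : ∀ (x : V) (s : Finset V), (∀ y ∈ s, T.Adj x y) → s.card ≤ Δ)
    (hc : Cond T f Λ s) (C : ℝ) (hs : ∀ n, (s n : ℝ) ≤ C * (3 / 2) ^ n) :
    ∃ a0 : ℕ, 1 ≤ a0 ∧ ∀ (k i : ℕ) (H : Set V) (h : V),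
      (∀ t, t ∉ H → ∀ t' ∈ H, T.dist t h + T.dist h t' = T.dist t t') → f k i ∉ H →
      a0 ≤ T.dist (f k i) h → ∀ (n : ℕ) (S : Finset ℕ),
      (∀ j ∈ S, j / 2 ^ n = i ∧ f (k + n) j ∈ H) → 4 * S.card ≤ 2 ^ n := by
  classical
  have hC : 0 ≤ C := by
    have := hs 0
    rw [pow_zero, mul_one] at this
    exact (Nat.cast_nonneg _).trans this
  set b : ℝ := ((Δ : ℝ) + 1) ^ Λ with hb
  have hb0 : 0 ≤ b := by positivity
  obtain ⟨m0, hm0⟩ : ∃ m0 : ℕ, 4 * b * C * (3 / 4 : ℝ) ^ m0 ≤ 1 / 4 := by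
    have h1 : Filter.Tendsto (fun m : ℕ => 4 * b * C * (3 / 4 : ℝ) ^ m) Filter.atTop
        (nhds (4 * b * C * 0)) :=
      (tendsto_pow_atTop_nhds_zero_of_lt_one (by norm_num) (by norm_num)).const_mul _
    rw [mul_zero] at h1
    obtain ⟨m0, h2⟩ := (h1.eventually (gt_mem_nhds (by norm_num : (0 : ℝ) < 1 / 4))).exists
    exact ⟨m0, h2.le⟩
  refine ⟨Λ * m0 + Λ + 1, by omega, ?_⟩
  intro k i H h hgate hnH hdist
  have hempty : ∀ n, n ≤ m0 → ∀ S : Finset ℕ,
      (∀ j ∈ S, j / 2 ^ n = i ∧ f (k + n) j ∈ H) → S.card = 0 := by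
    intro n hn S hS
    rw [Finset.card_eq_zero, Finset.eq_empty_iff_forall_notMem]
    intro j hj
    obtain ⟨h1, h2⟩ := hS j hj
    have h3 := hc.ver_n hT k n j
    rw [h1] at h3
    have h4 := hgate _ hnH _ h2
    have h5 : Λ * n ≤ Λ * m0 := Nat.mul_le_mul_left _ hn
    omega
  have key : ∀ n, m0 ≤ n → ∀ S : Finset ℕ, (∀ j ∈ S, j / 2 ^ n = i ∧ f (k + n) j ∈ H) →
      (S.card : ℝ) ≤ 2 ^ n * (4 * b * C * ((3 / 4 : ℝ) ^ m0 - (3 / 4) ^ (n + 1))) := by
    intro n hn
    induction n, hn using Nat.le_induction with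
    | base =>
      intro S hS
      rw [hempty m0 le_rfl S hS, Nat.cast_zero]
      have h1 : (3 / 4 : ℝ) ^ (m0 + 1) ≤ (3 / 4) ^ m0 :=
        pow_le_pow_of_le_one (by norm_num) (by norm_num) (Nat.le_succ _)
      have h2 : 0 ≤ (3 / 4 : ℝ) ^ m0 - (3 / 4) ^ (m0 + 1) := by linarith
      positivity
    | succ n hn ih =>
      intro S hS
      set S1 := S.filter fun j => f (k + n) (j / 2) ∈ H with hS1
      set S2 := S.filter fun j => f (k + n) (j / 2) ∉ H with hS2
      have hcard : S.card = S1.card + S2.card := by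
        rw [hS1, hS2, Finset.card_filter_add_card_filter_not]
      have e1 : S1.card ≤ 2 * (S1.image fun j => j / 2).card := by
        apply Finset.card_le_mul_card_image
        intro z hz
        have h1 : (S1.filter fun j => j / 2 = z) ⊆ {2 * z, 2 * z + 1} := by
          intro j hj
          have := (Finset.mem_filter.1 hj).2
          rw [Finset.mem_insert, Finset.mem_singleton]
          omega
        exact (Finset.card_le_card h1).trans Finset.card_le_two
      have e2 := ih (S1.image fun j => j / 2) (by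
        intro j' hj'
        obtain ⟨j, hj, rfl⟩ := Finset.mem_image.1 hj'
        obtain ⟨h1, h2⟩ := Finset.mem_filter.1 hj
        obtain ⟨h3, h4⟩ := hS j h1
        refine ⟨?_, h2⟩
        rw [Nat.div_div_eq_div_mul, ← pow_succ', h3])
      have e3 : S2.card ≤ s (n + 1) * (Δ + 1) ^ Λ := by
        apply ball_fib hT hΔ hc k i (n + 1) h Λ S2
        intro j hj
        obtain ⟨h1, h2⟩ := Finset.mem_filter.1 hj
        obtain ⟨h3, h4⟩ := hS j h1
        refine ⟨h3, ?_⟩
        have h5 := hgate _ h2 _ h4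
        have h6 := hc.ver (k + n) j
        have h7 : f (k + (n + 1)) j = f (k + n + 1) j := rfl
        rw [h7] at h5 ⊢
        omega
      have e4 := hs (n + 1)
      have e3' : (S2.card : ℝ) ≤ C * (3 / 2) ^ (n + 1) * b := by
        have h1 : (S2.card : ℝ) ≤ (s (n + 1) : ℝ) * ((Δ : ℝ) + 1) ^ Λ := by exact_mod_cast e3
        refine h1.trans ?_
        exact mul_le_mul_of_nonneg_right e4 hb0
      have e1' : (S1.card : ℝ) ≤ 2 * ((S1.image fun j => j / 2).card : ℝ) := by exact_mod_cast e1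
      have e5 : (3 / 2 : ℝ) ^ (n + 1) = 2 ^ (n + 1) * (3 / 4) ^ (n + 1) := by
        rw [← mul_pow]; norm_num
      have e6 : (3 / 4 : ℝ) ^ (n + 1 + 1) = (3 / 4) ^ (n + 1) * (3 / 4) := pow_succ _ _
      have e7 : (2 : ℝ) ^ (n + 1) = 2 ^ n * 2 := pow_succ _ _
      rw [hcard]
      push_cast
      rw [e5] at e3'
      rw [e6]
      rw [e7] at e3' ⊢
      calc (S1.card : ℝ) + S2.card
          ≤ 2 * (2 ^ n * (4 * b * C * ((3 / 4 : ℝ) ^ m0 - (3 / 4) ^ (n + 1)))) +
            C * (2 ^ n * 2 * (3 / 4) ^ (n + 1)) * b := by linarith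
        _ = 2 ^ n * 2 * (4 * b * C * ((3 / 4 : ℝ) ^ m0 - (3 / 4) ^ (n + 1) * (3 / 4))) := by ring
  intro n S hS
  rcases le_total n m0 with hn | hn
  · rw [hempty n hn S hS]; simp
  · have h1 := key n hn S hS
    have h2 : (0 : ℝ) ≤ 2 ^ n := by positivity
    have h3 : (0 : ℝ) ≤ 4 * b * C * (3 / 4) ^ (n + 1) := by positivity
    have h4 : (S.card : ℝ) ≤ 2 ^ n * (1 / 4) := by
      refine h1.trans (mul_le_mul_of_nonneg_left ?_ h2)
      linarith
    have h5 : (4 : ℝ) * S.card ≤ 2 ^ n := by linarith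
    exact_mod_cast h5

end Pool.Agent.H536R3.RM
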