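import Mathlib

set_option autoImplicit false
set_option linter.unusedVariables false

/-! Half-trees. -/

namespace Pool.Agent.H536R3.RM

universe u

variable {V : Type u} {T : SimpleGraph V}

/-- every walk from `t0` to `t` passes through `h` -/
def Thr (T : SimpleGraph V) (t0 h t : V) : Prop := ∀ p : T.Walk t0 t, h ∈ p.support

theorem not_thr_self {t0 h : V} (hne : h ≠ t0) : ¬ Thr T t0 h t0 := by
  intro h1
  have := h1 SimpleGraph.Walk.nil
  simp at this
  exact hne this

theorem dist_split (hT : T.Connected) {t t' h : V} (p : T.Walk t t')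
    (hp : p.length = T.dist t t') (hh : h ∈ p.support) :
    T.dist t h + T.dist h t' = T.dist t t' := by
  classical
  have h1 := SimpleGraph.dist_le (p.takeUntil h hh)
  have h2 := SimpleGraph.dist_le (p.dropUntil h hh)
  have h3 : (p.takeUntil h hh).length + (p.dropUntil h hh).length = p.length := by
    rw [← SimpleGraph.Walk.length_append, SimpleGraph.Walk.take_spec]
  have h4 := hT.dist_triangle (u := t) (v := h) (w := t')
  omega

/-- the entrance of a half-tree -/
theorem gate (hT : T.Connected) {t0 h t t' : V} (h1 : ¬ Thr T t0 h t) (h2 : Thr T t0 h t') :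
    T.dist t h + T.dist h t' = T.dist t t' := by
  classical
  unfold Thr at h1
  push Not at h1
  obtain ⟨p, hp⟩ := h1
  obtain ⟨q, hq⟩ := hT.exists_walk_length_eq_dist t t'
  apply dist_split hT q hq
  have h3 := h2 (p.append q)
  rw [SimpleGraph.Walk.mem_support_append_iff] at h3
  exact h3.resolve_left hp

theorem getVert_dist {t0 t : V} (hT : T.Connected) (p : T.Walk t0 t)
    (hp : p.length = T.dist t0 t) {a : ℕ} (ha : a ≤ T.dist t0 t) :
    T.dist t0 (p.getVert a) = a := by
  have h1 := SimpleGraph.dist_le (p.take a)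
  have h2 := SimpleGraph.dist_le (p.drop a)
  have h3 := hT.dist_triangle (u := t0) (v := p.getVert a) (w := t)
  rw [SimpleGraph.Walk.take_length] at h1
  rw [SimpleGraph.Walk.drop_length] at h2
  omega

theorem exists_color (hT : T.IsTree) {t0 t : V} {a : ℕ} (ha : a ≤ T.dist t0 t) :
    ∃ h, T.dist t0 h = a ∧ Thr T t0 h t := by
  classical
  obtain ⟨p, hp⟩ := hT.connected.exists_walk_length_eq_dist t0 t
  refine ⟨p.getVert a, getVert_dist hT.connected p hp ha, ?_⟩
  intro w
  have h1 : (⟨p, p.isPath_of_length_eq_dist hp⟩ : T.Path t0 t) = w.toPath :=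
    (hT.isAcyclic.subsingleton_path _ _).elim _ _
  have h2 : p = (w.toPath : T.Walk t0 t) := congrArg Subtype.val h1
  have h3 : p.getVert a ∈ p.support := p.getVert_mem_support a
  rw [h2] at h3
  rw [h2]
  exact SimpleGraph.Walk.support_bypass_subset_support w h3

theorem color_unique (hT : T.Connected) {t0 t h h' : V} (h1 : Thr T t0 h t)
    (h2 : Thr T t0 h' t) (hd : T.dist t0 h = T.dist t0 h') : h = h' := by
  classical
  obtain ⟨p, hp⟩ := hT.exists_walk_length_eq_dist t0 t
  have key : ∀ h, Thr T t0 h t → p.getVert (T.dist t0 h) = h := by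
    intro h hh
    have h3 := hh p
    rw [SimpleGraph.Walk.mem_support_iff_exists_getVert] at h3
    obtain ⟨n, hn, hnl⟩ := h3
    have h4 := getVert_dist hT p hp (a := n) (by omega)
    rw [hn] at h4
    rw [h4, hn]
  rw [← key h h1, ← key h' h2, hd]

/-- adjacent far points have the same colour -/
theorem thr_near (hT : T.Connected) {t0 h t t' : V} {Λ : ℕ} (h1 : Thr T t0 h t)
    (hd : T.dist t t' ≤ Λ) (hf : T.dist t0 h + Λ < T.dist t0 t) : Thr T t0 h t' := by
  by_contra h2
  have h3 := gate hT h2 h1
  have h4 := hT.dist_triangle (u := t0) (v := h) (w := t)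
  have h5 : T.dist t t' = T.dist t' t := SimpleGraph.dist_comm
  omega

theorem ball_bd (hX : T.Connected) (Δ : ℕ)
    (hΔ : ∀ (x : V) (s : Finset V), (∀ y ∈ s, T.Adj x y) → s.card ≤ Δ) :
    ∀ (r : ℕ) (x : V) (s : Finset V), (∀ y ∈ s, T.dist x y ≤ r) → s.card ≤ (Δ + 1) ^ r := by
  classical
  intro r
  induction r with
  | zero =>
    intro x s hs
    rw [pow_zero, Finset.card_le_one]
    intro a ha b hb
    have h1 := hs a ha
    have h2 := hs b hb
    rw [Nat.le_zero, hX.dist_eq_zero_iff] at h1 h2
    exact h1.symm.trans h2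
  | succ r ih =>
    intro x s hs
    have hπ : ∀ y, ∃ z, y ∈ s → T.dist x z ≤ r ∧ (z = y ∨ T.Adj z y) := by
      intro y
      by_cases hy : y ∈ s
      · have hy1 := hs y hy
        by_cases hyr : T.dist x y ≤ r
        · exact ⟨y, fun _ => ⟨hyr, Or.inl rfl⟩⟩
        · obtain ⟨p, hp⟩ := hX.exists_walk_length_eq_dist y x
          cases p with
          | nil =>
            exfalso; apply hyr; simp
          | @cons _ z _ hab q =>
            refine ⟨z, fun _ => ⟨?_, Or.inr hab.symm⟩⟩
            rw [SimpleGraph.Walk.length_cons, SimpleGraph.dist_comm] at hp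
            have := SimpleGraph.dist_le q
            rw [SimpleGraph.dist_comm] at this
            omega
      · exact ⟨y, fun h => absurd h hy⟩
    choose π hπ using hπ
    have h1 : s.card ≤ (Δ + 1) * (s.image π).card := by
      apply Finset.card_le_mul_card_image
      intro z hz
      have h2 : (s.filter fun y => π y = z) ⊆
          insert z ((s.filter fun y => π y = z).filter fun y => T.Adj z y) := by
        intro y hy
        rw [Finset.mem_insert]
        have hy' := Finset.mem_filter.1 hy
        rcases (hπ y hy'.1).2 with h | h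
        · left; rw [← h, hy'.2]
        · right
          rw [Finset.mem_filter]
          exact ⟨hy, by rw [← hy'.2]; exact h⟩
      refine (Finset.card_le_card h2).trans ((Finset.card_insert_le _ _).trans ?_)
      have := hΔ z ((s.filter fun y => π y = z).filter fun y => T.Adj z y)
        (fun y hy => (Finset.mem_filter.1 hy).2)
      omega
    have h2 : (s.image π).card ≤ (Δ + 1) ^ r := by
      apply ih x
      intro y hy
      obtain ⟨a, ha, rfl⟩ := Finset.mem_image.1 hy
      exact (hπ a ha).1
    calc s.card ≤ (Δ + 1) * (s.image π).card := h1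
      _ ≤ (Δ + 1) * (Δ + 1) ^ r := Nat.mul_le_mul_left _ h2
      _ = (Δ + 1) ^ (r + 1) := by rw [pow_succ, mul_comm]

end Pool.Agent.H536R3.RM
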